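import Pool.Agent.Work.MP_223b32_FY.Interface

/-!
# MP_223b32_ag, project FY, block TWO (helper79)

Double transitivity from a cycle (Jordan).
-/

set_option autoImplicit false

open MulAction Pointwise

namespace Pool.Agent.Work.FY

namespace TWO

variable {X : Type} [Fintype X] [DecidableEq X]

/-- the group is primitive -/
theorem prim (H : Subgroup (Equiv.Perm X)) (htr : ∀ a b : X, ∃ σ ∈ H, σ a = b)
    (c : Equiv.Perm X) (hc : c ∈ H) (C : Finset X) (hfix : ∀ x ∉ C, c x = x)
    (hcyc : ∀ x ∈ C, ∀ y ∈ C, ∃ n : ℕ, (c ^ n) x = y)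
    (hcop : Nat.Coprime C.card (Fintype.card X)) (hlt : Fintype.card X < 2 * C.card)
    (a : X) : IsPreprimitive H X := by
  classical
  have hpre : IsPretransitive H X := by
    refine ⟨fun x y => ?_⟩
    obtain ⟨σ, hσ, h⟩ := htr x y
    exact ⟨⟨σ, hσ⟩, h⟩
  set c' : H := ⟨c, hc⟩ with hc'
  refine IsPreprimitive.of_isTrivialBlock_base a fun {B} haB hB => ?_
  have hBne : B.Nonempty := ⟨a, haB⟩
  -- sizes of the translates
  by_cases hcase : ∃ g : H, ((g • B) ∩ (C : Set X)).Nonempty ∧ ¬ (g • B ⊆ (C : Set X))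
  · obtain ⟨g, ⟨y, hy1, hy2⟩, hns⟩ := hcase
    obtain ⟨x, hx1, hx2⟩ := Set.not_subset.1 hns
    have hB' : IsBlock H (g • B) := hB.translate g
    have hfx : c' • x = x := hfix x hx2
    have h1 : c' • (g • B) = g • B :=
      (isBlock_iff_smul_eq_of_mem.1 hB') hx1 (by rw [hfx]; exact hx1)
    have h2 : ∀ n : ℕ, c' ^ n • (g • B) = g • B := by
      intro n
      induction n with
      | zero => rw [pow_zero, one_smul]
      | succ n ih => rw [pow_succ, mul_smul, h1, ih]
    have h3 : (C : Set X) ⊆ g • B := by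
      intro z hz
      obtain ⟨n, hn⟩ := hcyc y hy2 z hz
      have h4 : c' ^ n • y ∈ c' ^ n • (g • B) := Set.smul_mem_smul_set hy1
      rw [h2] at h4
      have h5 : c' ^ n • y = z := by
        rw [← hn]
        rfl
      rwa [h5] at h4
    have h6 : Nat.card X < (g • B).ncard * 2 := by
      have h7 : C.card ≤ (g • B).ncard := by
        rw [← Set.ncard_coe_finset]
        exact Set.ncard_le_ncard h3 (Set.toFinite _)
      rw [Nat.card_eq_fintype_card]
      omega
    have h8 := hB'.eq_univ_of_card_lt h6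
    right
    have h9 : g⁻¹ • (g • B) = g⁻¹ • (Set.univ : Set X) := by rw [h8]
    rwa [inv_smul_smul, Set.smul_set_univ] at h9
  · left
    -- every translate that meets `C` is contained in `C`
    have hin : ∀ g : H, ((g • B) ∩ (C : Set X)).Nonempty → g • B ⊆ (C : Set X) := by
      intro g hg
      by_contra hns
      exact hcase ⟨g, hg, hns⟩
    -- the translates inside `C`
    set 𝒯 : Finset (Finset X) := Finset.univ.filter
      (fun T => (∃ g : H, (T : Set X) = g • B) ∧ T ⊆ C) with h𝒯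
    have hcov : C = 𝒯.biUnion id := by
      apply Finset.ext
      intro x
      constructor
      · intro hx
        obtain ⟨σ, hσ, h⟩ := htr a x
        set g : H := ⟨σ, hσ⟩ with hg
        have h1 : x ∈ g • B := by
          have h2 : g • a ∈ g • B := Set.smul_mem_smul_set haB
          have h3 : g • a = x := h
          rwa [h3] at h2
        have h4 : g • B ⊆ (C : Set X) := hin g ⟨x, h1, hx⟩
        refine Finset.mem_biUnion.2 ⟨(g • B).toFinset, ?_, ?_⟩
        · refine Finset.mem_filter.2 ⟨Finset.mem_univ _, ⟨g, Set.coe_toFinset _⟩, ?_⟩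
          intro y hy
          exact h4 (Set.mem_toFinset.1 hy)
        · exact Set.mem_toFinset.2 h1
      · intro hx
        obtain ⟨T, hT, hxT⟩ := Finset.mem_biUnion.1 hx
        exact (Finset.mem_filter.1 hT).2.2 hxT
    have hcard : ∀ T ∈ 𝒯, T.card = B.ncard := by
      intro T hT
      obtain ⟨-, ⟨g, hg⟩, -⟩ := Finset.mem_filter.1 hT
      rw [← Set.ncard_coe_finset, hg, Set.ncard_smul_set]
    have hdis : ∀ T ∈ 𝒯, ∀ T' ∈ 𝒯, T ≠ T' → Disjoint (id T) (id T') := by
      intro T hT T' hT' hne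
      obtain ⟨-, ⟨g, hg⟩, -⟩ := Finset.mem_filter.1 hT
      obtain ⟨-, ⟨g', hg'⟩, -⟩ := Finset.mem_filter.1 hT'
      rw [id_eq, id_eq, ← Finset.disjoint_coe, hg, hg']
      refine hB ?_
      rw [← hg, ← hg']
      intro h
      exact hne (Finset.coe_injective h)
    have h1 : C.card = 𝒯.card * B.ncard := by
      conv_lhs => rw [hcov]
      rw [Finset.card_biUnion hdis]
      have h2 : ∑ T ∈ 𝒯, (id T).card = ∑ T ∈ 𝒯, B.ncard := Finset.sum_congr rfl fun T hT =>
        hcard T hT
      rw [h2, Finset.sum_const, smul_eq_mul]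
    have h2 : B.ncard ∣ C.card := ⟨𝒯.card, by rw [h1, mul_comm]⟩
    have h3 : B.ncard ∣ Fintype.card X := by
      rw [← Nat.card_eq_fintype_card]
      exact hB.ncard_dvd_card hBne
    have h4 : B.ncard = 1 := by
      have h5 := Nat.dvd_gcd h2 h3
      rw [Nat.Coprime] at hcop
      rw [hcop] at h5
      exact Nat.dvd_one.1 h5
    obtain ⟨x, hx⟩ := Set.ncard_eq_one.1 h4
    rw [hx]
    exact Set.subsingleton_singleton

end TWO

open TWO in
theorem stmt_TWO : Stmt_TWO := by
  classical
  intro X _ _ H htr c hc C hfix hcyc hcop hlt hle a b e d hab hed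
  have hp : IsPreprimitive H X := prim H htr c hc C hfix hcyc hcop hlt a
  have hcardC : ((C : Set X)ᶜ).ncard = (Fintype.card X - C.card - 1) + 1 := by
    have h1 := Set.ncard_add_ncard_compl (C : Set X)
    rw [Set.ncard_coe_finset, Nat.card_eq_fintype_card] at h1
    omega
  have hn : (Fintype.card X - C.card - 1) + 2 < Nat.card X := by
    rw [Nat.card_eq_fintype_card]
    omega
  have htrans : IsPretransitive (fixingSubgroup H ((C : Set X)ᶜ))
      (SubMulAction.ofFixingSubgroup H ((C : Set X)ᶜ)) := by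
    have hmem : (⟨c, hc⟩ : H) ∈ fixingSubgroup H ((C : Set X)ᶜ) := by
      rw [mem_fixingSubgroup_iff]
      intro y hy
      exact hfix y hy
    refine ⟨?_⟩
    rintro ⟨x, hx⟩ ⟨y, hy⟩
    rw [SubMulAction.mem_ofFixingSubgroup_iff, Set.notMem_compl_iff] at hx hy
    obtain ⟨n, hn⟩ := hcyc x hx y hy
    refine ⟨(⟨⟨c, hc⟩, hmem⟩ : fixingSubgroup H ((C : Set X)ᶜ)) ^ n, ?_⟩
    apply Subtype.ext
    exact hn
  have h2 : IsMultiplyPretransitive H X 2 :=
    hp.is_two_pretransitive hcardC hn htrans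
  obtain ⟨g, hg1, hg2⟩ := (is_two_pretransitive_iff.1 h2) hab hed
  exact ⟨g.1, g.2, hg1, hg2⟩

end Pool.Agent.Work.FY
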